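import Pool.Agent.H54.V.SDPDefs
set_option autoImplicit false
namespace Pool.Agent.H54.V

/-- lists of integers stored as naturals with offset `2 ^ 120`. -/
def dz : List ℕ → List ℤ
  | [] => []
  | n :: l => Int.sub (Int.ofNat n) (Int.ofNat 1329227995784915872903807060280344576) :: dz l

end Pool.Agent.H54.V
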