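/-
Project V (MP_c8b0e0_co, S11399): truncated Voronoi cells.  Basic definitions.
Owner helper54.
-/
import Mathlib

set_option autoImplicit false
open MeasureTheory

namespace Pool.Agent.H54.V

abbrev E3 := EuclideanSpace ℝ (Fin 3)

/-- circumradius of the regular dodecahedron of inradius `1`; `R0 ^ 2 = 15 - 6 * √5`. -/
noncomputable def R0 : ℝ := Real.sqrt 3 * Real.tan (Real.pi / 5)

/-- cosine between adjacent faces normals of the dodecahedron. -/
noncomputable def a5 : ℝ := 1 / Real.sqrt 5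

/-- volume of the cap `{‖x‖ ≤ r, h < ⟪u,x⟫}` for a unit vector `u` and `0 ≤ h ≤ r`. -/
noncomputable def capV (r h : ℝ) : ℝ := Real.pi * (r - h) ^ 2 * (2 * r + h) / 3

/-- truncated version: `0` if the cap is empty. -/
noncomputable def capP (r h : ℝ) : ℝ := if h < r then capV r h else 0

/-- derivative of the lens volume. -/
noncomputable def lam (r t : ℝ) : ℝ :=
  (2 / 3) * (max (r ^ 2 - 2 / (1 + t)) 0) ^ (3 / 2 : ℝ) / Real.sqrt (1 - t ^ 2)

/-- volume of `{‖x‖ ≤ r, 1 < ⟪u,x⟫, 1 < ⟪v,x⟫}` for unit vectors `u v` with `⟪u,v⟫ = t`. -/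
noncomputable def lens (r t : ℝ) : ℝ := ∫ s in (-1 : ℝ)..t, lam r s

/-- volume of (regular dodecahedron of inradius `1`) ∩ (ball of radius `r`), `1 ≤ r ≤ R0`. -/
noncomputable def V12 (r : ℝ) : ℝ := 4 / 3 * Real.pi * r ^ 3 - 12 * capV r 1 + 30 * lens r a5

/-- the dodecahedron of the frozen statement. -/
noncomputable def Qset : Set E3 :=
  {x : EuclideanSpace ℝ (Fin 3) |
            |x 1| + Real.goldenRatio * |x 2| ≤ Real.sqrt (Real.goldenRatio + 2) ∧
            |x 0| + Real.goldenRatio * |x 1| ≤ Real.sqrt (Real.goldenRatio + 2) ∧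
            Real.goldenRatio * |x 0| + |x 2| ≤ Real.sqrt (Real.goldenRatio + 2)}

/-- volume of the truncated dodecahedron. -/
noncomputable def QV (r : ℝ) : ℝ := (volume (Qset ∩ Metric.closedBall (0 : E3) r)).toReal

/-- truncated polyhedral cell. -/
def Poly {ι : Type*} (u : ι → E3) (h : ι → ℝ) (r : ℝ) : Set E3 :=
  {x | ‖x‖ ≤ r ∧ ∀ i, inner ℝ (u i) x ≤ h i}

noncomputable def VP {ι : Type*} (u : ι → E3) (h : ι → ℝ) (r : ℝ) : ℝ :=
  (volume (Poly u h r)).toReal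

/-- sum over pairs `i < j`. -/
def pairSum {n : ℕ} (f : Fin n → Fin n → ℝ) : ℝ := ∑ i, ∑ j, if i < j then f i j else 0

/-- sum over triples `i < j < k`. -/
def tripSum {n : ℕ} (f : Fin n → Fin n → Fin n → ℝ) : ℝ :=
  ∑ i, ∑ j, ∑ k, if i < j ∧ j < k then f i j k else 0

/-- sorted configurations of active centres: direction `u i`, half distance `h i`. -/
structure Cfg (N : ℕ) (H : ℝ) where
  u : Fin N → E3
  h : Fin N → ℝ
  unit : ∀ i, ‖u i‖ = 1
  one_le : ∀ i, 1 ≤ h i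
  lt : ∀ i, h i < H
  mono : Monotone h
  sep : ∀ i j, i ≠ j → inner ℝ (u i) (u j) ≤ (h i ^ 2 + h j ^ 2 - 1) / (2 * h i * h j)

/-- `capV 1.2 h / π`. -/
noncomputable def ch (h : ℝ) : ℝ := if h < 6 / 5 then (6 / 5 - h) ^ 2 * (12 / 5 + h) / 3 else 0

/-- `ch 1 - ch (1 + x)` for `0 ≤ x ≤ 1/5`. -/
noncomputable def gh (x : ℝ) : ℝ := 11 / 25 * x - x ^ 2 - x ^ 3 / 3

/-- the K-criterion. -/
def KK {N : ℕ} (h : Fin N → ℝ) : Prop := ∑ i, ch (h i) ≤ 12 * ch 1 - 27 / 4000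

/-- energy of a family of ordinary points `u` and special points `z` with thresholds `τ`. -/
noncomputable def en {n m : ℕ} (u : Fin n → E3) (z : Fin m → E3) (τ : Fin m → ℝ) : ℝ :=
  pairSum (fun i j => max 0 (inner ℝ (u i) (u j) - 1 / 2)) +
    ∑ a, ∑ i, max 0 (inner ℝ (u i) (z a) - τ a)

/-- Legendre polynomials (as functions). -/
noncomputable def leg : ℕ → ℝ → ℝ
  | 0, _ => 1
  | 1, t => t
  | (k + 2), t => ((2 * (k : ℝ) + 3) * t * leg (k + 1) t - ((k : ℝ) + 1) * leg k t) / ((k : ℝ) + 2)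

/-- three-point kernel `Re ((z_x * conj z_y)^k)`, `u = ⟪e,x⟫`, `v = ⟪e,y⟫`, `t = ⟪x,y⟫`. -/
def Qk {R : Type*} [CommRing R] : ℕ → R → R → R → R
  | 0, _, _, _ => 1
  | 1, u, v, t => t - u * v
  | (k + 2), u, v, t =>
      2 * (t - u * v) * Qk (k + 1) u v t - (1 - u ^ 2) * (1 - v ^ 2) * Qk k u v t

end Pool.Agent.H54.V
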