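/-
Data types and integer polynomial expressions for the three-point SDP certificates.  (No sorry here.)
Scales: columns of `Fo`, `Fz` are multiplied by 2^40, entries of `A` by 2^35, `b`, `q`, `qs`, `kap` by 2^80.
-/
import Pool.Agent.H54.V.J.Bern
set_option autoImplicit false
namespace Pool.Agent.H54.V

/-- coefficients of `1024 * P_k`, `k ≤ 12`. -/
def LPi : ℕ → List ℤ
  | 0 => [1024]
  | 1 => [0, 1024]
  | 2 => [-512, 0, 1536]
  | 3 => [0, -1536, 0, 2560]
  | 4 => [384, 0, -3840, 0, 4480]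
  | 5 => [0, 1920, 0, -8960, 0, 8064]
  | 6 => [-320, 0, 6720, 0, -20160, 0, 14784]
  | 7 => [0, -2240, 0, 20160, 0, -44352, 0, 27456]
  | 8 => [280, 0, -10080, 0, 55440, 0, -96096, 0, 51480]
  | 9 => [0, 2520, 0, -36960, 0, 144144, 0, -205920, 0, 97240]
  | 10 => [-252, 0, 13860, 0, -120120, 0, 360360, 0, -437580, 0, 184756]
  | 11 => [0, -2772, 0, 60060, 0, -360360, 0, 875160, 0, -923780, 0, 352716]
  | 12 => [231, 0, -18018, 0, 225225, 0, -1021020, 0, 2078505, 0, -1939938, 0, 676039]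
  | _ => []

structure SDPData where
  Fo : List (ℕ × List (List ℤ × List ℤ))
  Fz : List (ℕ × List (List ℤ))
  A : List (ℕ × List (ℤ × ℤ))
  b : List ℤ
  q : List ℤ
  qs : List ℤ
  kap : ℤ

section
variable {R : Type*} [CommRing R]

/-- (ordinary, ordinary, ordinary) triple expression, scale 2^80. -/
def T1I (D : SDPData) (x y z : R) : R :=
  pe D.b x + pe D.b y + pe D.b z
  - 2 * (D.Fo.map fun p =>
      Qk p.1 x y z * (p.2.map fun c => pe c.1 x * pe c.1 y).sum
      + Qk p.1 y z x * (p.2.map fun c => pe c.1 y * pe c.1 z).sum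
      + Qk p.1 z x y * (p.2.map fun c => pe c.1 z * pe c.1 x).sum).sum

/-- (ordinary, ordinary, special) triple expression, `u v` = inner products with the special point, `t` = inner product
of the two ordinary points; scale 11 * 2^80. -/
def T2I (D : SDPData) (u v t : R) : R :=
  11 * pe D.q t + pe D.qs u + pe D.qs v
  - (D.Fo.map fun p =>
      22 * (1 - t ^ 2) ^ p.1 * (p.2.map fun c => pe c.1 t ^ 2).sum
      + 22 * Qk p.1 t u v * (p.2.map fun c => pe c.1 t * pe c.2 u).sum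
      + 22 * Qk p.1 t v u * (p.2.map fun c => pe c.1 t * pe c.2 v).sum
      + (1 - u ^ 2) ^ p.1 * (p.2.map fun c => pe c.2 u ^ 2).sum
      + (1 - v ^ 2) ^ p.1 * (p.2.map fun c => pe c.2 v ^ 2).sum).sum
  - (D.Fz.map fun p =>
      22 * Qk p.1 u v t * (p.2.map fun c => pe c u * pe c v).sum
      + (1 - u ^ 2) ^ p.1 * (p.2.map fun c => pe c u ^ 2).sum
      + (1 - v ^ 2) ^ p.1 * (p.2.map fun c => pe c v ^ 2).sum).sum
  - (D.A.map fun p =>
      22 * (((p.2.map fun c => c.1 ^ 2).sum : ℤ) : R) * pe (LPi p.1) t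
      + 2 * (((p.2.map fun c => c.1 * c.2).sum : ℤ) : R) * (pe (LPi p.1) u + pe (LPi p.1) v)).sum
  - 110 * pe D.b t - 11 * ((D.kap : ℤ) : R)

end

/-- `Σ (12 a² + b²)` over the columns of `A`. -/
def trA (D : SDPData) : ℤ := (D.A.map fun p => (p.2.map fun c => 12 * c.1 ^ 2 + c.2 ^ 2).sum).sum

/-! ### sums of squares, packed data -/

structure SOSData where
  tN : ℤ
  tD : ℤ
  uN : ℤ
  uD : ℤ
  s10 : List ℕ
  s11 : List ℕ
  s1g : List ℕ
  s1p : List ℕ
  r1 : List ℤ
  s20 : List ℕ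
  s2u : List ℕ
  s2t : List ℕ
  s2g : List ℕ
  s2p : List ℕ
  s2q : List ℕ
  r2 : List ℤ

/-- exponent vectors of total degree ≤ D, in the order of the data. -/
def mons (D : ℕ) : List (ℕ × ℕ × ℕ) :=
  (List.range (D + 1)).flatMap fun s => (List.range (s + 1)).flatMap fun i =>
    (List.range (i + 1)).map fun j => (s - i, i - j, j)

/-- `j`-th coefficient of a packed column (width 44 bits, offset 2^43). -/
def dig (N j : ℕ) : ℤ := (((N >>> (44 * j)) % 2 ^ 44 : ℕ) : ℤ) - 2 ^ 43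

section
variable {R : Type*} [CommRing R]

def colR (D N : ℕ) (x y z : R) : R :=
  ((mons D).zipIdx.map fun m => ((dig N m.2 : ℤ) : R) * (x ^ m.1.1 * y ^ m.1.2.1 * z ^ m.1.2.2)).sum

/-- sum of the squares of the polynomials given by the columns. -/
def sosR (D : ℕ) (cols : List ℕ) (x y z : R) : R := (cols.map fun N => colR D N x y z ^ 2).sum

/-- polynomial of total degree ≤ 14 with given coefficient list. -/
def remR (l : List ℤ) (x y z : R) : R :=
  (((mons 14).zip l).map fun m => ((m.2 : ℤ) : R) * (x ^ m.1.1 * y ^ m.1.2.1 * z ^ m.1.2.2)).sum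

def gramR (x y z : R) : R := 1 + 2 * x * y * z - x ^ 2 - y ^ 2 - z ^ 2

def S1R (S : SOSData) (x y z : R) : R :=
  (S.tD : R) ^ 2 * sosR 7 S.s10 x y z
  + (S.tD : R) * ((1 + x) * ((S.tN : R) - (S.tD : R) * x)) * sosR 6 S.s11 x y z
  + (S.tD : R) ^ 2 * gramR x y z * sosR 5 S.s1g x y z
  + ((S.tN : R) - (S.tD : R) * x) * ((S.tN : R) - (S.tD : R) * y) * sosR 6 S.s1p x y z

def S2R (S : SOSData) (u v t : R) : R :=
  (S.uD : R) ^ 2 * (S.tD : R) * sosR 7 S.s20 u v t
  + (S.uD : R) * (S.tD : R) * ((1 + u) * ((S.uN : R) - (S.uD : R) * u)) * sosR 6 S.s2u u v t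
  + (S.uD : R) ^ 2 * ((1 + t) * ((S.tN : R) - (S.tD : R) * t)) * sosR 6 S.s2t u v t
  + (S.uD : R) ^ 2 * (S.tD : R) * gramR u v t * sosR 5 S.s2g u v t
  + (S.tD : R) * (((S.uN : R) - (S.uD : R) * u) * ((S.uN : R) - (S.uD : R) * v)) * sosR 6 S.s2p u v t
  + (S.uD : R) * (((S.uN : R) - (S.uD : R) * u) * ((S.tN : R) - (S.tD : R) * t)) * sosR 6 S.s2q u v t

/-- the identity for the triples of ordinary points: `id1 = 0`. -/
def id1 (D : SDPData) (S : SOSData) (x y z : R) : R :=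
  6 * (S.tD : R) ^ 2 * T1I D x y z - (S1R S x y z + S1R S y x z + S1R S x z y + S1R S y z x + S1R S z x y + S1R S z y x)
    - remR S.r1 x y z

/-- the identity for (ordinary, ordinary, special): `id2 = 0`. -/
def id2 (D : SDPData) (S : SOSData) (u v t : R) : R :=
  2 * ((S.uD : R) ^ 2 * (S.tD : R)) * T2I D u v t - 11 * (S2R S u v t + S2R S v u t) - remR S.r2 u v t

end

end Pool.Agent.H54.V
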