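import Pool.Agent.H54.V.Defs
set_option autoImplicit false
namespace Pool.Agent.H54.V

/-- two-point LP certificate, see J/LPChk.lean -/
structure LPData where
  cols : List (ℕ × ℤ × List ℤ)
  f0 : ℤ
  g0 : List ℤ
  k0 : List (List ℤ)
  den : ℕ
  tp : ℤ
  tau : List ℤ
  U : List ℤ
  tz : List (List ℤ)

end Pool.Agent.H54.V
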