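import Pool.Agent.H54.V.Defs
set_option autoImplicit false
namespace Pool.Agent.H54.V

/-- maximal cosine between centres at half distances `1+a`, `1+b`. -/
noncomputable def Tf (a b : ℝ) : ℝ := ((1 + a) ^ 2 + (1 + b) ^ 2 - 1) / (2 * (1 + a) * (1 + b))

/-- `n` ordinary points with pairwise inner products ≤ `tp`, special points `a : Fin m`, inner products with ordinary points
≤ `U a`, thresholds `τ a`, mutual inner products ≤ `tz a b`:  the energy is at least `E`. -/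
def TCert (n : ℕ) {m : ℕ} (tp : ℝ) (U τ : Fin m → ℝ) (tz : Fin m → Fin m → ℝ) (E : ℝ) : Prop :=
  ∀ (u : Fin n → E3) (z : Fin m → E3), (∀ i, ‖u i‖ = 1) → (∀ a, ‖z a‖ = 1) →
    (∀ i j, i ≠ j → inner ℝ (u i) (u j) ≤ tp) → (∀ i a, inner ℝ (u i) (z a) ≤ U a) →
    (∀ a b, a ≠ b → inner ℝ (z a) (z b) ≤ tz a b) → E ≤ en u z τ

/-- energy bound of the kernel `L10` (n near points, m far points). -/
noncomputable def E10 (n m : ℕ) : ℝ :=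
  ((n : ℝ) * (n - 1) * 0.13141 + 2 * n * m * 0.07851 + (m : ℝ) * (m - 1) * 0.0424 - n * 1.60669 - m * 1.0194) / 2

def HL10 : Prop := ∀ n m : ℕ,
  TCert n (0.60141 : ℝ) (fun _ : Fin m => 0.63036) (fun _ => 0.6) (fun _ _ => 0.65278) (E10 n m)
def HL1 : Prop := TCert 14 (0.5868 : ℝ) (fun _ : Fin 0 => 0) (fun _ => 0) (fun _ _ => 0) 0.7796
def HL2 : Prop := TCert 13 (0.5868 : ℝ) (fun _ : Fin 1 => 0.5963) (fun _ => 0.5625) (fun _ _ => 0.6) 0.5218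
def HL3 : Prop := TCert 13 (0.5868 : ℝ) (fun _ : Fin 1 => 0.6077) (fun _ => 0.5775) (fun _ _ => 0.6) 0.4593
def HL4 : Prop := TCert 13 (0.5868 : ℝ) (fun _ : Fin 1 => 0.6155) (fun _ => 0.5875) (fun _ _ => 0.6) 0.4187
def HK1 : Prop := TCert 12 (0.5435 : ℝ) (fun _ : Fin 2 => 0.5976) (fun _ => 0.57) (fun _ _ => 0.6153) 0.2360
def HK2 : Prop :=
  TCert 12 (0.5305 : ℝ) ![(0.5836 : ℝ), 0.6047] ![(0.5625 : ℝ), 0.5875] (fun _ _ => 0.6274) 0.1975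
def HK3 : Prop :=
  TCert 12 (0.5228 : ℝ) ![(0.5913 : ℝ), 0.6008] ![(0.578 : ℝ), 0.5875] (fun _ _ => 0.6366) 0.1255
def HL11 : Prop := TCert 12 (0.514 : ℝ) (fun _ : Fin 3 => 0.6341) (fun _ => 0.6293) (fun _ _ => 0.6843) 0.1565
def HC1 : Prop := TCert 12 (0.5465 : ℝ) (fun _ : Fin 1 => 0.5465) (fun _ => 0.5) (fun _ _ => 1) 0.342
def HC2 : Prop := TCert 12 (0.542 : ℝ) (fun _ : Fin 1 => 0.573) (fun _ => 0.53) (fun _ _ => 1) 0.224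
def HC3 : Prop := TCert 12 (0.525 : ℝ) (fun _ : Fin 1 => 0.582) (fun _ => 0.55) (fun _ _ => 1) 0.1725
def HC4 : Prop := TCert 12 (0.5155 : ℝ) (fun _ : Fin 1 => 0.594) (fun _ => 0.57) (fun _ _ => 1) 0.1055
def HC5 : Prop := TCert 12 (0.5155 : ℝ) (fun _ : Fin 1 => 0.6025) (fun _ => 0.59) (fun _ _ => 1) 0.0226

/-- volume kernel at `r = 1.21` with a hole at `z`. -/
def VCert (τ U K : ℝ) : Prop := ∀ (u : Fin 12 → E3) (z : E3), (∀ i, ‖u i‖ = 1) → ‖z‖ = 1 →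
  (∀ i j, i ≠ j → inner ℝ (u i) (u j) ≤ (0.514 : ℝ)) → (∀ i, inner ℝ (u i) z ≤ U) →
  K - 0.05 * ∑ i, max 0 (inner ℝ (u i) z - τ) ≤ pairSum (fun i j => lens 1.21 (inner ℝ (u i) (u j)))

def HV1 : Prop := VCert 0.6 0.607 0.0298
def HV2 : Prop := VCert 0.6293 0.6341 0.0274

/-- The situation left over by the K-criterion: 12 near centres, at most 2 far ones. -/
structure Case2 (m : ℕ) where
  u : Fin 12 → E3
  h : Fin 12 → ℝ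
  z : Fin m → E3
  g : Fin m → ℝ
  hu : ∀ i, ‖u i‖ = 1
  hz : ∀ a, ‖z a‖ = 1
  h1 : ∀ i, 1 ≤ h i
  hs : ∑ i, (h i - 1) ≤ 0.0276
  g1 : ∀ a, 1.156 < g a
  g2 : ∀ a, g a < R0
  huu : ∀ i j, i ≠ j → inner ℝ (u i) (u j) ≤ (0.514 : ℝ)
  huz : ∀ i a, inner ℝ (u i) (z a) ≤ (h i ^ 2 + g a ^ 2 - 1) / (2 * h i * g a)
  hm : m ≤ 2
  s4 : ∀ a, g a ≤ 1.172 → 1.182 - g a ≤ ∑ i, (h i - 1)
  s5 : ∀ a, g a ≤ 1.19 → 0.009 - max (g a - 1.18) 0 ≤ ∑ i, (h i - 1)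

end Pool.Agent.H54.V
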