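import Pool.Agent.H54.V.J.KCase
import Pool.Agent.H54.V.J.VMain
import Pool.Agent.H54.V.J.VK
import Pool.Agent.H54.V.J.CertL
import Pool.Agent.H54.V.J.HC1
import Pool.Agent.H54.V.J.HC2
import Pool.Agent.H54.V.J.HC3
import Pool.Agent.H54.V.J.HC4
import Pool.Agent.H54.V.J.HC5
set_option autoImplicit false
open MeasureTheory
namespace Pool.Agent.H54.V

theorem cfg_ineq {N : ℕ} (c : Cfg N R0) (r : ℝ) (h1 : 1 < r) (hr : r ≤ R0) : QV r ≤ VP c.u c.h r := by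
  by_cases hK : KK c.h
  · exact Kcrit c hK r h1 hr
  · obtain ⟨m, D, hD⟩ := kcase hl10 hl1 hl2 hl3 hl4 hk1 hk2 hk3 hl11 hc1 hc2 hc3 hc4 hc5 c hK
    rw [← hD r]
    exact vmain hv1 hv2 D r h1 hr

theorem poly_ne_top {ι : Type*} (u : ι → E3) (h : ι → ℝ) (r : ℝ) : volume (Poly u h r) ≠ ⊤ := by
  have hfin : volume (Metric.closedBall (0 : E3) r) ≠ ⊤ := measure_closedBall_lt_top.ne
  refine ne_top_of_le_ne_top hfin ?_
  refine measure_mono fun x hx => ?_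
  rw [Metric.mem_closedBall, dist_zero_right]
  exact hx.1

theorem final (C : Set E3) (h0 : (0 : E3) ∈ C) (hC : ∀ a ∈ C, ∀ b ∈ C, a ≠ b → (2 : ℝ) ≤ dist a b) (r : ℝ)
    (h1 : 1 < r) (hr : r ≤ R0) :
    volume (Qset ∩ Metric.closedBall (0 : E3) r) ≤
      volume ({x : E3 | ∀ c ∈ C, ‖x‖ ≤ dist x c} ∩ Metric.closedBall (0 : E3) r) := by
  obtain ⟨N, c, hc⟩ := exists_cfg C h0 hC
  refine le_trans ?_ (measure_mono (hc r hr))
  have h := cfg_ineq c r h1 hr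
  unfold QV VP at h
  exact (ENNReal.toReal_le_toReal (Qvol_ne_top r) (poly_ne_top c.u c.h r)).1 h

end Pool.Agent.H54.V
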